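import Mathlib

/-!
# The Zeckendorf game: the priority game is a longest game

Write `S 1` for the ones move, `S i` (`i ≥ 2`) for the split moves and `M i` for the merge moves.
As changes of the multiplicities, `M i = S 1 + S 2 + ... + S i`.  The proof is an exchange argument.

* `splitFirst`: if `S i` is legal in a position, then any game can be changed, without making it
  shorter, so that it starts with `S i`.
* `mergeFirst`: if in a position only merges are legal and `M j` is the lowest one, then any game
  can be changed, without making it shorter, so that it starts with `M j`.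
-/

set_option autoImplicit false

namespace Pool.Agent.Results.MP_33fea0_co.PriorityLongest

/-- A position: `c i` is the number of copies of the Fibonacci number `F_i` (`i ≥ 1`), where
`F_1 = 1`, `F_2 = 2`, `F_(i+1) = F_i + F_(i-1)`. -/
abbrev Position := ℕ →₀ ℕ

/-- One copy of `F_i`. -/
noncomputable def e (i : ℕ) : Position := Finsupp.single i 1

/-- The moves of the Zeckendorf game; `r` is the part of the position which does not change. -/
inductive Step : Position → Position → Prop
  | merge (r : Position) (i : ℕ) (hi : 2 ≤ i) : Step (r + e (i - 1) + e i) (r + e (i + 1))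
  | ones (r : Position) : Step (r + e 1 + e 1) (r + e 2)
  | splitTwo (r : Position) : Step (r + e 2 + e 2) (r + e 1 + e 3)
  | split (r : Position) (i : ℕ) (hi : 3 ≤ i) : Step (r + e i + e i) (r + e (i - 2) + e (i + 1))

/-- The moves allowed in the priority game: a ones move if two copies of `F_1` are present;
otherwise a split move on the smallest index `i ≥ 2` which occurs at least twice; otherwise a merge
move `F_(i-1), F_i → F_(i+1)` with the smallest possible `i`. -/
inductive PriorityStep : Position → Position → Prop
  | ones (r : Position) : PriorityStep (r + e 1 + e 1) (r + e 2)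
  | splitTwo (r : Position) (h1 : (r + e 2 + e 2) 1 < 2) :
      PriorityStep (r + e 2 + e 2) (r + e 1 + e 3)
  | split (r : Position) (i : ℕ) (hi : 3 ≤ i) (h1 : ∀ k, 1 ≤ k → k < i → (r + e i + e i) k < 2) :
      PriorityStep (r + e i + e i) (r + e (i - 2) + e (i + 1))
  | merge (r : Position) (i : ℕ) (hi : 2 ≤ i)
      (h1 : ∀ k, 1 ≤ k → (r + e (i - 1) + e i) k < 2)
      (h2 : ∀ k, 2 ≤ k → k < i →
        ¬ (1 ≤ (r + e (i - 1) + e i) (k - 1) ∧ 1 ≤ (r + e (i - 1) + e i) k)) :
      PriorityStep (r + e (i - 1) + e i) (r + e (i + 1))

/-- `Game c l`: there is a sequence of `l` moves from `c` to a position with no legal move. -/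
inductive Game : Position → ℕ → Prop
  | done (c : Position) (h : ∀ c', ¬ Step c c') : Game c 0
  | step (c c' : Position) (l : ℕ) (h : Step c c') (hg : Game c' l) : Game c (l + 1)

/-- `PriorityGame c l`: the priority game from `c` ends after `l` moves. -/
inductive PriorityGame : Position → ℕ → Prop
  | done (c : Position) (h : ∀ c', ¬ Step c c') : PriorityGame c 0
  | step (c c' : Position) (l : ℕ) (h : PriorityStep c c') (hg : PriorityGame c' l) :
      PriorityGame c (l + 1)

/-- The start position: `n` copies of `F_1`. -/
noncomputable def start (n : ℕ) : Position := Finsupp.single 1 n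

theorem e_apply (i k : ℕ) : e i k = if i = k then 1 else 0 := Finsupp.single_apply

/-- what a ones or split move on `i` produces -/
noncomputable def out (i : ℕ) : Position :=
  if i = 1 then e 2 else if i = 2 then e 1 + e 3 else e (i - 2) + e (i + 1)

theorem stepS (r : Position) (i : ℕ) (hi : 1 ≤ i) : Step (r + e i + e i) (r + out i) := by
  unfold out
  by_cases h1 : i = 1
  · subst h1; simpa using Step.ones r
  · by_cases h2 : i = 2
    · subst h2
      have := Step.splitTwo r
      rw [add_assoc r (e 1) (e 3)] at this
      simpa using this
    · rw [if_neg h1, if_neg h2, ← add_assoc]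
      exact Step.split r i (by omega)

/-- a move is a merge or a ones/split move -/
theorem step_cases {c c' : Position} (h : Step c c') :
    (∃ r i, 2 ≤ i ∧ c = r + e (i - 1) + e i ∧ c' = r + e (i + 1)) ∨
    (∃ r i, 1 ≤ i ∧ c = r + e i + e i ∧ c' = r + out i) := by
  cases h with
  | merge r i hi => exact Or.inl ⟨r, i, hi, rfl, rfl⟩
  | ones r => exact Or.inr ⟨r, 1, le_rfl, rfl, by simp [out]⟩
  | splitTwo r => exact Or.inr ⟨r, 2, by norm_num, rfl, by simp [out, add_assoc]⟩
  | split r i hi =>
    refine Or.inr ⟨r, i, by omega, rfl, ?_⟩
    rw [out, if_neg (by omega), if_neg (by omega), add_assoc]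

theorem common {c r r' a b : Position} (h1 : c = r + a) (h2 : c = r' + b)
    (hd : ∀ k, a k = 0 ∨ b k = 0) : ∃ s, r = s + b ∧ r' = s + a := by
  have hb : b ≤ r := by
    intro k
    have e1 : c k = r k + a k := by rw [h1]; rfl
    have e2 : c k = r' k + b k := by rw [h2]; rfl
    rcases hd k with h | h <;> omega
  refine ⟨r - b, (tsub_add_cancel_of_le hb).symm, ?_⟩
  have h3 : r' + b = r - b + a + b := by
    rw [← h2, h1, add_right_comm, tsub_add_cancel_of_le hb]
  exact add_right_cancel h3

/-- weights for a termination measure -/
def wt (i : ℕ) : ℕ := if i = 1 then 3 else i + 3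

noncomputable def mu (c : Position) : ℕ := c.sum fun i m => m * wt i

theorem mu_add (a b : Position) : mu (a + b) = mu a + mu b := by
  unfold mu
  exact Finsupp.sum_add_index' (fun _ => by simp) (fun _ _ _ => by ring)

theorem mu_e (i : ℕ) : mu (e i) = wt i := by
  unfold mu e
  rw [Finsupp.sum_single_index (by simp)]
  simp

theorem mu_step {c c' : Position} (h : Step c c') : mu c' < mu c := by
  cases h with
  | merge r i hi =>
    simp only [mu_add, mu_e, wt]
    split_ifs <;> omega
  | ones r => simp only [mu_add, mu_e, wt]; simp
  | splitTwo r => simp only [mu_add, mu_e, wt]; simp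
  | split r i hi =>
    simp only [mu_add, mu_e, wt]
    split_ifs <;> omega

/-- Any game from a position with two copies of `F_i` can be changed so that it starts with the ones
or split move on `i`. -/
theorem splitFirst {c : Position} {l : ℕ} (hG : Game c l) : ∀ (r : Position) (i : ℕ), 1 ≤ i →
    c = r + e i + e i → ∃ m, l ≤ m + 1 ∧ Game (r + out i) m := by
  induction hG with
  | done c h =>
    intro r i hi hc
    exact absurd (hc ▸ stepS r i hi) (h _)
  | step c c1 l hs hg ih =>
    intro r i hi hc
    rcases step_cases hs with ⟨r', j, hj, hc', hc1⟩ | ⟨r', j, hj, hc', hc1⟩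
    · -- a merge
      by_cases h1 : j = i
      · subst h1
        -- c = r + e j + e j = r' + e (j-1) + e j
        have h2 : r + e j = r' + e (j - 1) := by
          have : r + e j + e j = r' + e (j - 1) + e j := by rw [← hc, ← hc']
          exact add_right_cancel this
        obtain ⟨s, hr, hr'⟩ := common (c := r + e j) rfl h2 (fun k => by
          rw [e_apply, e_apply]; by_cases hk : j = k
          · right; rw [if_neg (by omega)]
          · left; rw [if_neg hk])
        subst hr hr'
        refine ⟨l + 1, by omega, ?_⟩
        by_cases h3 : j = 2
        · subst h3
          have hst : Step (s + e (2 - 1) + out 2) c1 := by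
            rw [hc1]
            have := Step.ones (s + e 3)
            convert this using 1
            · simp [out]; abel
            · abel
          exact Game.step _ _ _ hst hg
        · have hst : Step (s + e (j - 1) + out j) c1 := by
            rw [hc1]
            have := Step.merge (s + e (j + 1)) (j - 1) (by omega)
            rw [show j - 1 + 1 = j by omega, show j - 1 - 1 = j - 2 by omega] at this
            convert this using 1
            · rw [out, if_neg (by omega), if_neg h3]; abel
            · abel
          exact Game.step _ _ _ hst hg
      · by_cases h1' : j = i + 1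
        · subst h1'
          rw [show i + 1 - 1 = i by omega] at hc'
          have h2 : r + e i = r' + e (i + 1) := by
            have : r + e i + e i = r' + e (i + 1) + e i := by
              rw [← hc, hc']; abel
            exact add_right_cancel this
          obtain ⟨s, hr, hr'⟩ := common (c := r + e i) rfl h2 (fun k => by
            rw [e_apply, e_apply]; by_cases hk : i = k
            · right; rw [if_neg (by omega)]
            · left; rw [if_neg hk])
          subst hr hr'
          by_cases h3 : i = 1
          · subst h3
            refine ⟨l + 1, by omega, ?_⟩
            have hst : Step (s + e (1 + 1) + out 1) c1 := by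
              rw [hc1]
              have := Step.splitTwo s
              convert this using 1
              · simp [out]
            exact Game.step _ _ _ hst hg
          · refine ⟨l + 1 + 1, by omega, ?_⟩
            by_cases h4 : i = 2
            · subst h4
              have hst1 : Step (s + e (2 + 1) + out 2) (s + e 1 + e 1 + e 4) := by
                have := Step.split (s + e 1) 3 le_rfl
                convert this using 1
                · simp [out]; abel
              have hst2 : Step (s + e 1 + e 1 + e 4) c1 := by
                rw [hc1]
                have := Step.ones (s + e 4)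
                convert this using 1
                · abel
                · abel
              exact Game.step _ _ _ hst1 (Game.step _ _ _ hst2 hg)
            · have hst1 : Step (s + e (i + 1) + out i) (s + e (i + 2) + e (i - 2) + e (i - 1)) := by
                have := Step.split (s + e (i - 2)) (i + 1) (by omega)
                rw [show i + 1 - 2 = i - 1 by omega] at this
                convert this using 1
                · rw [out, if_neg h3, if_neg h4]; abel
                · rw [show i + 1 + 1 = i + 2 by omega]; abel
              have hst2 : Step (s + e (i + 2) + e (i - 2) + e (i - 1)) c1 := by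
                rw [hc1]
                have := Step.merge (s + e (i + 2)) (i - 1) (by omega)
                rw [show i - 1 + 1 = i by omega, show i - 1 - 1 = i - 2 by omega] at this
                convert this using 1
                rw [show i + 1 + 1 = i + 2 by omega]; abel
              exact Game.step _ _ _ hst1 (Game.step _ _ _ hst2 hg)
        · -- independent moves
          by_cases h1'' : j - 1 = i
          · omega
          obtain ⟨s, hr, hr'⟩ := common (c := c) (r := r) (a := e i + e i) (r' := r')
            (b := e (j - 1) + e j) (by rw [hc, add_assoc]) (by rw [hc', add_assoc]) (fun k => by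
              simp only [Finsupp.add_apply, e_apply]
              by_cases hk : i = k
              · right; rw [if_neg (by omega), if_neg (by omega)]
              · left; rw [if_neg hk])
          obtain ⟨m, hm, hgm⟩ := ih (s + e (j + 1)) i hi (by rw [hc1, hr']; abel)
          refine ⟨m + 1, by omega, ?_⟩
          refine Game.step _ (s + e (j + 1) + out i) _ ?_ hgm
          have := Step.merge (s + out i) j hj
          convert this using 1
          · rw [hr]; abel
          · abel
    · by_cases h1 : j = i
      · subst h1
        have h2 : r = r' := by
          have : r + e j + e j = r' + e j + e j := by rw [← hc, ← hc']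
          exact add_right_cancel (add_right_cancel this)
        subst h2
        exact ⟨l, le_rfl, hc1 ▸ hg⟩
      · obtain ⟨s, hr, hr'⟩ := common (c := c) (r := r) (a := e i + e i) (r' := r')
          (b := e j + e j) (by rw [hc, add_assoc]) (by rw [hc', add_assoc]) (fun k => by
            simp only [Finsupp.add_apply, e_apply]
            by_cases hk : i = k
            · right; rw [if_neg (by omega)]
            · left; rw [if_neg hk])
        obtain ⟨m, hm, hgm⟩ := ih (s + out j) i hi (by rw [hc1, hr']; abel)
        refine ⟨m + 1, by omega, ?_⟩
        refine Game.step _ (s + out j + out i) _ ?_ hgm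
        have := stepS (s + out i) j hj
        convert this using 1
        · rw [hr]; abel
        · abel

/-- Shape of the part of the position above `j` in the exchange argument. -/
def Shape (j : ℕ) (c : Position) : Prop :=
  (∀ k, 1 ≤ k → c k < 2) ∨
    ∃ i, j + 3 ≤ i ∧ c i = 2 ∧ c (i - 1) = 0 ∧ c (i - 2) = 0 ∧ ∀ k, 1 ≤ k → k ≠ i → c k < 2

/-- If `M j` is the lowest legal merge and no ones or split move is legal, then any game can be
changed so that it starts with `M j`. -/
theorem mergeFirst : ∀ (N : ℕ) (c : Position), mu c = N → ∀ (j : ℕ) (r : Position), 2 ≤ j →
    c = r + e (j - 1) + e j → (∀ k, 2 ≤ k → k < j → ¬ (1 ≤ c (k - 1) ∧ 1 ≤ c k)) →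
    Shape j c → ∀ l, Game c l → ∃ m, l ≤ m + 1 ∧ Game (r + e (j + 1)) m := by
  intro N
  induction N using Nat.strong_induction_on with
  | _ N ih =>
    intro c hN j r hj hc hlow hshape l hG
    rcases hshape with hst | ⟨i, hji, hi2, hi1, hi0, hoth⟩
    · -- only merges are legal
      cases hG with
      | done _ h => exact absurd (hc ▸ Step.merge r j hj) (h _)
      | step _ c1 l' hs hg =>
        rcases step_cases hs with ⟨r', k, hk, hc', hc1⟩ | ⟨r', k, hk, hc', hc1⟩
        swap
        · have h1 := hst k hk
          rw [hc'] at h1
          simp only [Finsupp.add_apply, e_apply, if_true] at h1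
          omega
        have hck : 1 ≤ c k := by
          rw [hc']; simp only [Finsupp.add_apply, e_apply, if_true]; omega
        have hck1 : 1 ≤ c (k - 1) := by
          rw [hc']; simp only [Finsupp.add_apply, e_apply, if_true]; omega
        have hkj : j ≤ k := by
          by_contra hcon
          exact hlow k hk (by omega) ⟨hck1, hck⟩
        by_cases h1 : k = j
        · subst h1
          have h2 : r = r' := by
            have : r + e (k - 1) + e k = r' + e (k - 1) + e k := by rw [← hc, ← hc']
            exact add_right_cancel (add_right_cancel this)
          subst h2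
          exact ⟨l', le_rfl, hc1 ▸ hg⟩
        by_cases h2 : k = j + 1
        · subst h2
          rw [show j + 1 - 1 = j by omega] at hc'
          have h3 : r + e (j - 1) = r' + e (j + 1) := by
            have : r + e (j - 1) + e j = r' + e (j + 1) + e j := by rw [← hc, hc']; abel
            exact add_right_cancel this
          obtain ⟨s, hr, hr'⟩ := common (c := r + e (j - 1)) rfl h3 (fun x => by
            rw [e_apply, e_apply]; by_cases hx : j - 1 = x
            · right; rw [if_neg (by omega)]
            · left; rw [if_neg hx])
          subst hr hr'
          refine ⟨l' + 1, by omega, ?_⟩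
          refine Game.step _ _ _ ?_ hg
          rw [hc1]
          have := Step.split s (j + 1) (by omega)
          rw [show j + 1 - 2 = j - 1 by omega] at this
          exact this
        · obtain ⟨s, hr, hr'⟩ := common (c := c) (r := r) (a := e (j - 1) + e j) (r' := r')
            (b := e (k - 1) + e k) (by rw [hc, add_assoc]) (by rw [hc', add_assoc]) (fun x => by
              simp only [Finsupp.add_apply, e_apply]
              by_cases hx : j < x
              · left; rw [if_neg (by omega), if_neg (by omega)]
              · right; rw [if_neg (by omega), if_neg (by omega)])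
          have hc1' : c1 = (s + e (k + 1)) + e (j - 1) + e j := by rw [hc1, hr']; abel
          -- values of c1
          have hval : ∀ x, c1 x + (if k - 1 = x then 1 else 0) + (if k = x then 1 else 0)
              = c x + (if k + 1 = x then 1 else 0) := by
            intro x
            rw [hc', hc1]
            simp only [Finsupp.add_apply, e_apply]
            omega
          have hsame : ∀ x, x ≤ j → c1 x = c x := by
            intro x hx
            have := hval x
            rw [if_neg (by omega), if_neg (by omega), if_neg (by omega)] at this
            omega
          have hlow1 : ∀ x, 2 ≤ x → x < j → ¬ (1 ≤ c1 (x - 1) ∧ 1 ≤ c1 x) := by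
            intro x hx hxj
            rw [hsame x (by omega), hsame (x - 1) (by omega)]
            exact hlow x hx hxj
          have hck2 := hst k (by omega)
          have hck3 := hst (k - 1) (by omega)
          have hck4 := hst (k + 1) (by omega)
          have v1 : c1 k = 0 := by
            have := hval k
            rw [if_neg (by omega), if_pos rfl, if_neg (by omega)] at this
            omega
          have v2 : c1 (k - 1) = 0 := by
            have := hval (k - 1)
            rw [if_pos rfl, if_neg (by omega), if_neg (by omega)] at this
            omega
          have v3 : c1 (k + 1) = c (k + 1) + 1 := by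
            have := hval (k + 1)
            rw [if_neg (by omega), if_neg (by omega), if_pos rfl] at this
            omega
          have v4 : ∀ x, 1 ≤ x → x ≠ k + 1 → c1 x < 2 := by
            intro x hx hxk
            have := hval x
            have h5 := hst x hx
            rw [if_neg (show ¬ k + 1 = x by omega)] at this
            split_ifs at this <;> omega
          have hshape1 : Shape j c1 := by
            by_cases h6 : c (k + 1) = 0
            · left
              intro x hx
              by_cases hxk : x = k + 1
              · subst hxk; omega
              · exact v4 x hx hxk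
            · right
              refine ⟨k + 1, by omega, by omega, by simpa using v1, ?_, v4⟩
              rw [show k + 1 - 2 = k - 1 by omega]
              exact v2
          obtain ⟨m, hm, hgm⟩ := ih (mu c1) (hN ▸ mu_step hs) c1 rfl j (s + e (k + 1)) hj hc1'
            hlow1 hshape1 l' hg
          refine ⟨m + 1, by omega, ?_⟩
          refine Game.step _ _ _ ?_ hgm
          have := Step.merge (s + e (j + 1)) k hk
          convert this using 1
          · rw [hr]; abel
          · abel
    · -- there are two copies of `F_i`, `i ≥ j + 3`
      have h2 : e i + e i ≤ c := by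
        intro x
        simp only [Finsupp.add_apply, e_apply]
        by_cases hx : i = x
        · subst hx; simp [hi2]
        · simp [hx]
      obtain ⟨r1, hr1⟩ : ∃ r1, c = r1 + e i + e i :=
        ⟨c - (e i + e i), by rw [add_assoc, tsub_add_cancel_of_le h2]⟩
      have hstep : Step c (r1 + e (i - 2) + e (i + 1)) := by
        rw [hr1]; exact Step.split r1 i (by omega)
      obtain ⟨m1, hm1, hg1⟩ := splitFirst hG r1 i (by omega) hr1
      rw [out, if_neg (by omega), if_neg (by omega), ← add_assoc] at hg1
      obtain ⟨s, hr, hr'⟩ := common (c := c) (r := r) (a := e (j - 1) + e j) (r' := r1)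
        (b := e i + e i) (by rw [hc, add_assoc]) (by rw [hr1, add_assoc]) (fun x => by
          simp only [Finsupp.add_apply, e_apply]
          by_cases hx : j < x
          · left; rw [if_neg (by omega), if_neg (by omega)]
          · right; rw [if_neg (by omega)])
      set c2 := r1 + e (i - 2) + e (i + 1) with hc2
      have hc2' : c2 = (s + e (i - 2) + e (i + 1)) + e (j - 1) + e j := by rw [hc2, hr']; abel
      have hval : ∀ x, c2 x + (if i = x then 2 else 0)
          = c x + (if i - 2 = x then 1 else 0) + (if i + 1 = x then 1 else 0) := by
        intro x
        rw [hc2, hr1]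
        simp only [Finsupp.add_apply, e_apply]
        split_ifs <;> omega
      have hsame : ∀ x, x ≤ j → c2 x = c x := by
        intro x hx
        have := hval x
        rw [if_neg (by omega), if_neg (by omega), if_neg (by omega)] at this
        omega
      have hlow2 : ∀ x, 2 ≤ x → x < j → ¬ (1 ≤ c2 (x - 1) ∧ 1 ≤ c2 x) := by
        intro x hx hxj
        rw [hsame x (by omega), hsame (x - 1) (by omega)]
        exact hlow x hx hxj
      have w1 : c2 i = 0 := by
        have := hval i
        rw [if_pos rfl, if_neg (by omega), if_neg (by omega)] at this
        omega
      have w2 : c2 (i - 1) = 0 := by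
        have := hval (i - 1)
        rw [if_neg (by omega), if_neg (by omega), if_neg (by omega)] at this
        omega
      have w3 : c2 (i + 1) = c (i + 1) + 1 := by
        have := hval (i + 1)
        rw [if_neg (by omega), if_neg (by omega), if_pos rfl] at this
        omega
      have w4 : ∀ x, 1 ≤ x → x ≠ i + 1 → c2 x < 2 := by
        intro x hx hxi
        have h5 := hval x
        rw [if_neg (show ¬ i + 1 = x by omega)] at h5
        by_cases h6 : x = i
        · subst h6; omega
        · have h7 := hoth x hx h6
          rw [if_neg (show ¬ i = x by omega)] at h5
          by_cases h8 : i - 2 = x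
          · rw [if_pos h8] at h5
            rw [h8] at hi0
            omega
          · rw [if_neg h8] at h5; omega
      have hshape2 : Shape j c2 := by
        by_cases h6 : c (i + 1) = 0
        · left
          intro x hx
          by_cases hxi : x = i + 1
          · subst hxi; omega
          · exact w4 x hx hxi
        · right
          have h7 := hoth (i + 1) (by omega) (by omega)
          refine ⟨i + 1, by omega, by omega, by simpa using w1, ?_, w4⟩
          rw [show i + 1 - 2 = i - 1 by omega]
          exact w2
      obtain ⟨m, hm, hgm⟩ := ih (mu c2) (hN ▸ mu_step hstep) c2 rfl j (s + e (i - 2) + e (i + 1))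
        hj hc2' hlow2 hshape2 m1 hg1
      refine ⟨m + 1, by omega, ?_⟩
      refine Game.step _ _ _ ?_ hgm
      have := Step.split (s + e (j + 1)) i (by omega)
      convert this using 1
      · rw [hr]; abel
      · abel

theorem PriorityStep.step {c c' : Position} (h : PriorityStep c c') : Step c c' := by
  cases h with
  | ones r => exact Step.ones r
  | splitTwo r _ => exact Step.splitTwo r
  | split r i hi _ => exact Step.split r i hi
  | merge r i hi _ _ => exact Step.merge r i hi

/-- One step of the priority game can be made the first move of any game. -/
theorem priorityFirst {c c' : Position} (h : PriorityStep c c') {l : ℕ} (hG : Game c l) :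
    ∃ m, l ≤ m + 1 ∧ Game c' m := by
  cases h with
  | ones r => simpa [out] using splitFirst hG r 1 le_rfl rfl
  | splitTwo r _ => simpa [out, add_assoc] using splitFirst hG r 2 (by norm_num) rfl
  | split r i hi _ =>
    have := splitFirst hG r i (by omega) rfl
    rw [out, if_neg (by omega), if_neg (by omega), ← add_assoc] at this
    exact this
  | merge r i hi h1 h2 =>
    exact mergeFirst _ _ rfl i r hi rfl h2 (Or.inl h1) l hG

theorem game_le {c : Position} {D : ℕ} (h : PriorityGame c D) : ∀ l, Game c l → l ≤ D := by
  induction h with
  | done c h =>
    intro l hG
    cases hG with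
    | done _ _ => exact le_rfl
    | step _ c1 _ hs _ => exact absurd hs (h c1)
  | step c c' D hs _ ih =>
    intro l hG
    obtain ⟨m, hm, hgm⟩ := priorityFirst hs hG
    have := ih m hgm
    omega

theorem PriorityGame.game {c : Position} {D : ℕ} (h : PriorityGame c D) : Game c D := by
  induction h with
  | done c h => exact Game.done c h
  | step c c' D hs _ ih => exact Game.step c c' D hs.step ih

/-- If some move is legal, then the priority game has a next move. -/
theorem exists_priority {c c' : Position} (h : Step c c') : ∃ c'', PriorityStep c c'' := by
  classical
  by_cases h1 : ∃ k, 1 ≤ k ∧ 2 ≤ c k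
  · set i := Nat.find h1 with hi
    obtain ⟨hi1, hi2⟩ := Nat.find_spec h1
    have hmin : ∀ k, 1 ≤ k → k < i → c k < 2 := by
      intro k hk hki
      by_contra hcon
      exact Nat.find_min h1 hki ⟨hk, by omega⟩
    have h2 : e i + e i ≤ c := by
      intro x
      simp only [Finsupp.add_apply, e_apply]
      by_cases hx : i = x
      · subst hx; simpa using hi2
      · simp [hx]
    obtain ⟨r, hr⟩ : ∃ r, c = r + e i + e i :=
      ⟨c - (e i + e i), by rw [add_assoc, tsub_add_cancel_of_le h2]⟩
    rcases Nat.lt_or_ge i 3 with h3 | h3
    · have h4 : i = 1 ∨ i = 2 := by omega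
      rcases h4 with h4 | h4
      · rw [hr, h4]; exact ⟨_, PriorityStep.ones r⟩
      · have h5 := hmin 1 le_rfl (by omega)
        rw [hr, h4] at h5
        rw [hr, h4]; exact ⟨_, PriorityStep.splitTwo r h5⟩
    · rw [hr] at hmin ⊢
      exact ⟨_, PriorityStep.split r i h3 hmin⟩
  · push Not at h1
    rcases step_cases h with ⟨r', k, hk, hc', -⟩ | ⟨r', k, hk, hc', -⟩
    swap
    · have h2 := h1 k hk
      rw [hc'] at h2
      simp only [Finsupp.add_apply, e_apply, if_true] at h2
      omega
    have h3 : ∃ k, 2 ≤ k ∧ 1 ≤ c (k - 1) ∧ 1 ≤ c k := by
      refine ⟨k, hk, ?_, ?_⟩ <;>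
      · rw [hc']; simp only [Finsupp.add_apply, e_apply, if_true]; omega
    set i := Nat.find h3 with hi
    obtain ⟨hi1, hi2, hi3⟩ := Nat.find_spec h3
    have hmin : ∀ k, 2 ≤ k → k < i → ¬ (1 ≤ c (k - 1) ∧ 1 ≤ c k) := by
      intro k hk hki hcon
      exact Nat.find_min h3 hki ⟨hk, hcon⟩
    have h4 : e (i - 1) + e i ≤ c := by
      intro x
      simp only [Finsupp.add_apply, e_apply]
      by_cases hx : i = x
      · have h5 : ¬ i - 1 = x := by omega
        rw [if_neg h5, if_pos hx, ← hx]; simpa using hi3
      · by_cases hx' : i - 1 = x
        · rw [if_pos hx', if_neg hx, ← hx']; simpa using hi2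
        · simp [hx, hx']
    obtain ⟨r, hr⟩ : ∃ r, c = r + e (i - 1) + e i :=
      ⟨c - (e (i - 1) + e i), by rw [add_assoc, tsub_add_cancel_of_le h4]⟩
    have h1' : ∀ k, 1 ≤ k → c k < 2 := h1
    rw [hr] at h1' hmin ⊢
    exact ⟨_, PriorityStep.merge r i hi1 h1' hmin⟩

theorem exists_priorityGame : ∀ (N : ℕ) (c : Position), mu c = N → ∃ D, PriorityGame c D := by
  intro N
  induction N using Nat.strong_induction_on with
  | _ N ih =>
    intro c hN
    by_cases h : ∃ c', Step c c'
    · obtain ⟨c', hc'⟩ := h
      obtain ⟨c'', hs⟩ := exists_priority hc'
      obtain ⟨D, hD⟩ := ih (mu c'') (hN ▸ mu_step hs.step) c'' rfl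
      exact ⟨D + 1, PriorityGame.step c c'' D hs hD⟩
    · push Not at h
      exact ⟨0, PriorityGame.done c h⟩

/-- For every `n`, the priority game on `n` has a well-defined length `D`, and `D` is the maximum
length of a game on `n`. -/
theorem result (n : ℕ) : ∃ D, PriorityGame (start n) D ∧
    (∀ D', PriorityGame (start n) D' → D' = D) ∧ IsGreatest {l | Game (start n) l} D := by
  obtain ⟨D, hD⟩ := exists_priorityGame _ (start n) rfl
  refine ⟨D, hD, fun D' hD' => ?_, hD.game, fun l hl => game_le hD l hl⟩
  exact le_antisymm (game_le hD D' hD'.game) (game_le hD' D hD.game)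

end Pool.Agent.Results.MP_33fea0_co.PriorityLongest
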